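import Mathlib

set_option autoImplicit false

namespace Pool.Agent.H58.BinMat

open Finset

/-- The binary matroid on `Fin n` represented by the vectors `v i`. -/
noncomputable def vecMatroid {n m : ℕ} (v : Fin n → (Fin m → ZMod 2)) : Matroid (Fin n) :=
  (IndepMatroid.ofFinite (E := Set.univ) Set.finite_univ
    (fun I => LinearIndepOn (ZMod 2) v I)
    (linearIndepOn_empty _ _)
    (fun _ _ hJ hIJ => hJ.mono hIJ)
    (by
      classical
      intro I J hI hJ hIJ
      by_contra hcon
      push Not at hcon
      have hsub : ∀ e ∈ J, v e ∈ Submodule.span (ZMod 2) (v '' I) := by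
        intro e he
        by_cases heI : e ∈ I
        · exact Submodule.subset_span ⟨e, heI, rfl⟩
        · by_contra hns
          exact hcon e he heI ((linearIndepOn_insert heI).mpr ⟨hI, hns⟩)
      have h1 : Fintype.card J ≤ Fintype.card (v '' I) := by
        apply linearIndependent_le_span_aux' (R := ZMod 2) (fun e : J => v e) hJ (v '' I)
        rintro _ ⟨e, rfl⟩
        exact hsub e e.2
      have h2 : (v '' I).ncard ≤ I.ncard := Set.ncard_image_le (Set.toFinite I)
      rw [← Nat.card_eq_fintype_card, ← Nat.card_eq_fintype_card, Nat.card_coe_set_eq,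
        Nat.card_coe_set_eq] at h1
      omega)
    (fun _ _ => Set.subset_univ _)).matroid

lemma vecMatroid_E {n m : ℕ} (v : Fin n → (Fin m → ZMod 2)) : (vecMatroid v).E = Set.univ := rfl

lemma vecMatroid_indep {n m : ℕ} (v : Fin n → (Fin m → ZMod 2)) (I : Set (Fin n)) :
    (vecMatroid v).Indep I ↔ LinearIndepOn (ZMod 2) v I := Iff.rfl

/-- dependence in terms of coefficient functions -/
lemma not_linearIndepOn_iff {n m : ℕ} (v : Fin n → (Fin m → ZMod 2)) (I : Set (Fin n)) :
    ¬ LinearIndepOn (ZMod 2) v I ↔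
      ∃ c : Fin n → ZMod 2, c ≠ 0 ∧ (∀ i, c i ≠ 0 → i ∈ I) ∧ ∑ i, c i • v i = 0 := by
  classical
  have hI : ((Set.toFinset I : Finset (Fin n)) : Set (Fin n)) = I := by simp
  rw [← hI, linearIndepOn_finset_iff]
  push Not
  constructor
  · rintro ⟨f, hf, i, hi, hfi⟩
    refine ⟨fun j => if j ∈ I then f j else 0, ?_, ?_, ?_⟩
    · intro h
      have := congrFun h i
      simp only [Set.mem_toFinset] at hi
      simp [hi] at this
      exact hfi this
    · intro j hj
      by_contra hjI
      simp only [Set.coe_toFinset] at hjI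
      simp [hjI] at hj
    · rw [← hf, ← Finset.sum_subset (Finset.subset_univ (Set.toFinset I))]
      · apply Finset.sum_congr rfl
        intro j hj
        simp only [Set.mem_toFinset] at hj
        simp [hj]
      · intro j _ hj
        simp only [Set.mem_toFinset] at hj
        simp [hj]
  · rintro ⟨c, hc, hcI, hsum⟩
    obtain ⟨i, hi⟩ := Function.ne_iff.mp hc
    refine ⟨c, ?_, i, ?_, hi⟩
    · rw [← hsum]
      apply Finset.sum_subset (Finset.subset_univ _)
      intro j _ hj
      by_cases hcj : c j = 0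
      · simp [hcj]
      · exact absurd (hcI j hcj) (by simpa using hj)
    · simpa using hcI i hi

/-- a binary matroid whose space of dependencies is a prescribed submodule -/
lemma exists_vectors {n : ℕ} (Z : Submodule (ZMod 2) (Fin n → ZMod 2)) :
    ∃ (m : ℕ) (v : Fin n → (Fin m → ZMod 2)), ∀ c : Fin n → ZMod 2,
      ∑ i, c i • v i = 0 ↔ c ∈ Z := by
  classical
  let b := Module.finBasis (ZMod 2) ((Fin n → ZMod 2) ⧸ Z)
  let q : (Fin n → ZMod 2) →ₗ[ZMod 2] (Fin (Module.finrank (ZMod 2) ((Fin n → ZMod 2) ⧸ Z)) → ZMod 2) :=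
    b.equivFun.toLinearMap ∘ₗ Z.mkQ
  refine ⟨_, fun i => q (Pi.single i 1), fun c => ?_⟩
  have h1 : ∑ i, c i • q (Pi.single i 1) = q c := by
    have : c = ∑ i, c i • (Pi.single i 1 : Fin n → ZMod 2) := by
      ext j
      simp [Finset.sum_apply, Pi.single_apply]
    conv_rhs => rw [this]
    rw [map_sum]
    simp
  rw [h1]
  simp only [q, LinearMap.comp_apply, LinearEquiv.coe_coe, Submodule.mkQ_apply]
  rw [LinearEquiv.map_eq_zero_iff, Submodule.Quotient.mk_eq_zero]

end Pool.Agent.H58.BinMat
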