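import Mathlib

set_option autoImplicit false

namespace Pool.Agent.H58.InterCode

open Finset

lemma zmod2_cases (z : ZMod 2) : z = 0 ∨ z = 1 := by
  revert z; decide

lemma exists_dot_one {k : ℕ} {u : Fin k → ZMod 2} (hu : u ≠ 0) :
    ∃ x : Fin k → ZMod 2, u ⬝ᵥ x = 1 := by
  obtain ⟨j, hj⟩ := Function.ne_iff.mp hu
  refine ⟨Pi.single j 1, ?_⟩
  rcases zmod2_cases (u j) with h | h
  · exact absurd h hj
  · simp [h]

lemma exists_common {k : ℕ} {u u' : Fin k → ZMod 2} (hu : u ≠ 0) (hu' : u' ≠ 0) :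
    ∃ x : Fin k → ZMod 2, u ⬝ᵥ x = 1 ∧ u' ⬝ᵥ x = 1 := by
  obtain ⟨a, ha⟩ := exists_dot_one hu
  obtain ⟨b, hb⟩ := exists_dot_one hu'
  rcases zmod2_cases (u' ⬝ᵥ a) with h | h
  · rcases zmod2_cases (u ⬝ᵥ b) with h2 | h2
    · exact ⟨a + b, by simp [dotProduct_add, ha, h2], by simp [dotProduct_add, hb, h]⟩
    · exact ⟨b, h2, hb⟩
  · exact ⟨a, ha, h⟩

/-- the vectors on which the two functionals are not both one -/
def Wset {k : ℕ} (u u' : Fin k → ZMod 2) : Finset (Fin k → ZMod 2) :=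
  univ.filter fun x => ¬ (u ⬝ᵥ x = 1 ∧ u' ⬝ᵥ x = 1)

lemma card_Wset {k : ℕ} {u u' : Fin k → ZMod 2} (hu : u ≠ 0) (hu' : u' ≠ 0) :
    4 * (Wset u u').card ≤ 3 * 2 ^ k := by
  classical
  let Φ : (Fin k → ZMod 2) →+ ZMod 2 × ZMod 2 :=
    { toFun := fun x => (u ⬝ᵥ x, u' ⬝ᵥ x)
      map_zero' := by simp
      map_add' := by intro x y; simp [dotProduct_add] }
  have hrange : ((1, 1) : ZMod 2 × ZMod 2) ∈ Set.range Φ := by
    obtain ⟨x, hx, hx'⟩ := exists_common hu hu'
    exact ⟨x, by simp [Φ, hx, hx']⟩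
  have hfib : ∀ p : ZMod 2 × ZMod 2,
      (univ.filter fun x => Φ x = p).card ≤ (univ.filter fun x => Φ x = (1, 1)).card := by
    intro p
    by_cases hp : p ∈ Set.range Φ
    · exact (AddMonoidHom.card_fiber_eq_of_mem_range Φ hp hrange).le
    · have : (univ.filter fun x => Φ x = p) = ∅ := by
        apply Finset.filter_eq_empty_iff.mpr
        intro x _ hx
        exact hp ⟨x, hx⟩
      rw [this]; simp
  have htot : (univ : Finset (Fin k → ZMod 2)).card
      = ∑ p : ZMod 2 × ZMod 2, (univ.filter fun x => Φ x = p).card := by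
    apply Finset.card_eq_sum_card_fiberwise
    intro x _; simp
  have hcard : (univ : Finset (Fin k → ZMod 2)).card = 2 ^ k := by
    simp [Finset.card_univ, ZMod.card]
  have h4 : (univ : Finset (Fin k → ZMod 2)).card
      ≤ 4 * (univ.filter fun x => Φ x = (1, 1)).card := by
    rw [htot]
    calc ∑ p : ZMod 2 × ZMod 2, (univ.filter fun x => Φ x = p).card
        ≤ ∑ _p : ZMod 2 × ZMod 2, (univ.filter fun x => Φ x = (1, 1)).card :=
          Finset.sum_le_sum fun p _ => hfib p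
      _ = 4 * (univ.filter fun x => Φ x = (1, 1)).card := by
          simp [Finset.sum_const, Finset.card_univ]
  have hcompl : (Wset u u').card + (univ.filter fun x => Φ x = (1, 1)).card = 2 ^ k := by
    rw [← hcard]
    have : (univ.filter fun x => Φ x = (1, 1))
        = univ.filter fun x => (u ⬝ᵥ x = 1 ∧ u' ⬝ᵥ x = 1) := by
      ext x; simp [Φ, Prod.ext_iff]
    rw [this, Wset, add_comm]
    exact Finset.card_filter_add_card_filter_not _
  omega

lemma card_bad1 {k n : ℕ} (u u' : Fin k → ZMod 2) :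
    (univ.filter fun g : Fin n → (Fin k → ZMod 2) =>
      ∀ i, ¬ (u ⬝ᵥ g i = 1 ∧ u' ⬝ᵥ g i = 1)).card = (Wset u u').card ^ n := by
  classical
  have : (univ.filter fun g : Fin n → (Fin k → ZMod 2) =>
      ∀ i, ¬ (u ⬝ᵥ g i = 1 ∧ u' ⬝ᵥ g i = 1)) = Fintype.piFinset fun _ => Wset u u' := by
    ext g; simp [Wset]
  rw [this]; simp

lemma card_bad2 {k n : ℕ} (S : Finset (Fin n)) (hS : S.Nonempty) :
    2 ^ k * (univ.filter fun g : Fin n → (Fin k → ZMod 2) => ∑ i ∈ S, g i = 0).card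
      = Fintype.card (Fin n → (Fin k → ZMod 2)) := by
  classical
  let Ψ : (Fin n → (Fin k → ZMod 2)) →+ (Fin k → ZMod 2) :=
    { toFun := fun g => ∑ i ∈ S, g i
      map_zero' := by simp
      map_add' := by intro x y; simp [Finset.sum_add_distrib] }
  have hsurj : Function.Surjective Ψ := by
    intro y
    obtain ⟨i, hi⟩ := hS
    refine ⟨Pi.single i y, ?_⟩
    change ∑ j ∈ S, (Pi.single i y : Fin n → (Fin k → ZMod 2)) j = y
    rw [Finset.sum_eq_single_of_mem i hi]
    · simp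
    · intro j _ hj; simp [hj]
  have htot : (univ : Finset (Fin n → (Fin k → ZMod 2))).card
      = ∑ p : (Fin k → ZMod 2), (univ.filter fun x => Ψ x = p).card := by
    apply Finset.card_eq_sum_card_fiberwise
    intro x _; simp
  have hfib : ∀ p : (Fin k → ZMod 2),
      (univ.filter fun x => Ψ x = p).card = (univ.filter fun x => Ψ x = 0).card := by
    intro p
    exact AddMonoidHom.card_fiber_eq_of_mem_range Ψ (hsurj p) (hsurj 0)
  rw [← Finset.card_univ, htot, Finset.sum_congr rfl fun p _ => hfib p]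
  simp [Finset.sum_const, Finset.card_univ, ZMod.card, Ψ]

/-- existence of a good exponent -/
lemma exists_k (t : ℕ) : ∃ k : ℕ, 3 ≤ k ∧ 2 * (t * (8 * k) ^ t) < 2 ^ k := by
  have h := tendsto_pow_const_div_const_pow_of_one_lt t (r := (2 : ℝ)) (by norm_num)
  have hpos : (0 : ℝ) < 1 / (2 * t * 8 ^ t + 1) := by positivity
  have hev := (h.eventually (gt_mem_nhds hpos)).and (Filter.eventually_ge_atTop 3)
  obtain ⟨k, hk, hk3⟩ := hev.exists
  refine ⟨k, hk3, ?_⟩
  have h2 : (0 : ℝ) < 2 ^ k := by positivity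
  have hk' : (k : ℝ) ^ t * (2 * t * 8 ^ t + 1) < 2 ^ k := by
    rw [div_lt_div_iff₀ h2 (by positivity)] at hk
    linarith
  have hk0 : (0 : ℝ) < (k : ℝ) ^ t := by
    have : (0 : ℝ) < k := by exact_mod_cast (by omega : 0 < k)
    positivity
  have : ((2 * (t * (8 * k) ^ t) : ℕ) : ℝ) < ((2 ^ k : ℕ) : ℝ) := by
    push_cast
    rw [mul_pow]
    nlinarith
  exact_mod_cast this

/-- there are vectors `g i` spanning an intersecting code with no short dependency -/
theorem exists_good (t : ℕ) : ∃ (k n : ℕ) (g : Fin n → (Fin k → ZMod 2)), 3 ≤ k ∧ 1 ≤ n ∧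
    (∀ u u' : Fin k → ZMod 2, u ≠ 0 → u' ≠ 0 → ∃ i, u ⬝ᵥ g i = 1 ∧ u' ⬝ᵥ g i = 1) ∧
    (∀ S : Finset (Fin n), S.Nonempty → S.card < t → ∑ i ∈ S, g i ≠ 0) := by
  classical
  obtain ⟨k, hk3, hk⟩ := exists_k t
  refine ⟨k, 8 * k, ?_⟩
  set n := 8 * k with hn
  by_contra hcon
  push Not at hcon
  -- all functions are bad
  set T := Fintype.card (Fin n → (Fin k → ZMod 2)) with hT
  have hTval : T = (2 ^ k) ^ n := by
    simp [hT, ZMod.card]
  have hTpos : 0 < T := by rw [hTval]; positivity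
  let P : Finset ((Fin k → ZMod 2) × (Fin k → ZMod 2)) :=
    univ.filter fun p => p.1 ≠ 0 ∧ p.2 ≠ 0
  let Q : Finset (Finset (Fin n)) := univ.filter fun S => S.Nonempty ∧ S.card < t
  let B1 : ((Fin k → ZMod 2) × (Fin k → ZMod 2)) → Finset (Fin n → (Fin k → ZMod 2)) :=
    fun p => univ.filter fun g => ∀ i, ¬ (p.1 ⬝ᵥ g i = 1 ∧ p.2 ⬝ᵥ g i = 1)
  let B2 : Finset (Fin n) → Finset (Fin n → (Fin k → ZMod 2)) :=
    fun S => univ.filter fun g => ∑ i ∈ S, g i = 0
  have hcover : (univ : Finset (Fin n → (Fin k → ZMod 2))) ⊆ P.biUnion B1 ∪ Q.biUnion B2 := by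
    intro g _
    by_cases h1 : ∀ u u' : Fin k → ZMod 2, u ≠ 0 → u' ≠ 0 → ∃ i, u ⬝ᵥ g i = 1 ∧ u' ⬝ᵥ g i = 1
    · obtain ⟨S, hS, hSt, hS0⟩ := hcon g hk3 (by omega) h1
      exact Finset.mem_union_right _ (Finset.mem_biUnion.mpr
        ⟨S, by simp [Q, hS, hSt], by simp [B2, hS0]⟩)
    · push Not at h1
      obtain ⟨u, u', hu, hu', h⟩ := h1
      refine Finset.mem_union_left _ (Finset.mem_biUnion.mpr ⟨(u, u'), by simp [P, hu, hu'], ?_⟩)
      simp only [B1, Finset.mem_filter, Finset.mem_univ, true_and]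
      rintro i ⟨h3, h4⟩
      exact h i h3 h4
  have hle : T ≤ (∑ p ∈ P, (B1 p).card) + ∑ S ∈ Q, (B2 S).card := by
    calc T = (univ : Finset (Fin n → (Fin k → ZMod 2))).card := by rw [Finset.card_univ]
      _ ≤ (P.biUnion B1 ∪ Q.biUnion B2).card := Finset.card_le_card hcover
      _ ≤ (P.biUnion B1).card + (Q.biUnion B2).card := Finset.card_union_le _ _
      _ ≤ _ := add_le_add Finset.card_biUnion_le Finset.card_biUnion_le
  -- first sum
  have hs1 : 4 ^ n * (∑ p ∈ P, (B1 p).card) ≤ 4 ^ k * (3 ^ n * T) := by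
    rw [Finset.mul_sum]
    have hPcard : P.card ≤ 4 ^ k := by
      calc P.card ≤ (univ : Finset ((Fin k → ZMod 2) × (Fin k → ZMod 2))).card :=
            Finset.card_le_card (Finset.filter_subset _ _)
        _ = 4 ^ k := by
            rw [Finset.card_univ, Fintype.card_prod]
            simp only [Fintype.card_pi, ZMod.card, Finset.prod_const, Finset.card_univ,
              Fintype.card_fin]
            rw [← mul_pow]
            norm_num
    calc ∑ p ∈ P, 4 ^ n * (B1 p).card ≤ ∑ _p ∈ P, 3 ^ n * T := by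
          apply Finset.sum_le_sum
          intro p hp
          simp only [P, Finset.mem_filter, Finset.mem_univ, true_and] at hp
          have hb : (B1 p).card = (Wset p.1 p.2).card ^ n := card_bad1 p.1 p.2
          rw [hb, ← mul_pow, hTval, ← mul_pow]
          exact Nat.pow_le_pow_left (card_Wset hp.1 hp.2) n
      _ = P.card * (3 ^ n * T) := by rw [Finset.sum_const, smul_eq_mul]
      _ ≤ 4 ^ k * (3 ^ n * T) := Nat.mul_le_mul_right _ hPcard
  have hs2 : 2 ^ k * (∑ S ∈ Q, (B2 S).card) ≤ (t * n ^ t) * T := by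
    rw [Finset.mul_sum]
    have hQcard : Q.card ≤ t * n ^ t := by
      have hsub : Q ⊆ (Finset.range t).biUnion fun i => Finset.powersetCard i univ := by
        intro S hS
        simp only [Q, Finset.mem_filter, Finset.mem_univ, true_and] at hS
        exact Finset.mem_biUnion.mpr ⟨S.card, Finset.mem_range.mpr hS.2,
          Finset.mem_powersetCard.mpr ⟨Finset.subset_univ _, rfl⟩⟩
      calc Q.card ≤ ((Finset.range t).biUnion fun i =>
              Finset.powersetCard i (univ : Finset (Fin n))).card := Finset.card_le_card hsub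
        _ ≤ ∑ i ∈ Finset.range t, (Finset.powersetCard i (univ : Finset (Fin n))).card :=
            Finset.card_biUnion_le
        _ ≤ ∑ _i ∈ Finset.range t, n ^ t := by
            apply Finset.sum_le_sum
            intro i hi
            rw [Finset.card_powersetCard, Finset.card_univ, Fintype.card_fin]
            calc n.choose i ≤ n ^ i := Nat.choose_le_pow n i
              _ ≤ n ^ t := Nat.pow_le_pow_right (by omega) (Finset.mem_range.mp hi).le
        _ = t * n ^ t := by rw [Finset.sum_const, Finset.card_range, smul_eq_mul]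
    calc ∑ S ∈ Q, 2 ^ k * (B2 S).card ≤ ∑ _S ∈ Q, T := by
          apply Finset.sum_le_sum
          intro S hS
          simp only [Q, Finset.mem_filter, Finset.mem_univ, true_and] at hS
          exact (card_bad2 S hS.1).le
      _ = Q.card * T := by rw [Finset.sum_const, smul_eq_mul]
      _ ≤ (t * n ^ t) * T := Nat.mul_le_mul_right _ hQcard
  have hnum : 2 * (4 ^ k * 3 ^ n) < 4 ^ n := by
    rw [hn, pow_mul 3 8 k, pow_mul 4 8 k, ← mul_pow]
    norm_num
    have hbase : ∀ m : ℕ, 1 ≤ m → 2 * 26244 ^ m < 65536 ^ m := by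
      intro m hm
      induction m, hm using Nat.le_induction with
      | base => norm_num
      | succ m hm ih =>
        rw [pow_succ, pow_succ]
        nlinarith [pow_pos (show (0 : ℕ) < 26244 by norm_num) m]
    exact hbase k (by omega)
  have h1 : 2 * (∑ p ∈ P, (B1 p).card) < T := by
    have h4n : 0 < 4 ^ n := by positivity
    by_contra hge
    push Not at hge
    have h5 : 4 ^ n * T ≤ 2 * (4 ^ k * (3 ^ n * T)) := by
      calc 4 ^ n * T ≤ 4 ^ n * (2 * ∑ p ∈ P, (B1 p).card) := Nat.mul_le_mul_left _ hge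
        _ = 2 * (4 ^ n * ∑ p ∈ P, (B1 p).card) := by ring
        _ ≤ 2 * (4 ^ k * (3 ^ n * T)) := Nat.mul_le_mul_left _ hs1
    have h6 : 2 * (4 ^ k * (3 ^ n * T)) < 4 ^ n * T := by
      calc 2 * (4 ^ k * (3 ^ n * T)) = (2 * (4 ^ k * 3 ^ n)) * T := by ring
        _ < 4 ^ n * T := Nat.mul_lt_mul_of_pos_right hnum hTpos
    omega
  have h2 : 2 * (∑ S ∈ Q, (B2 S).card) < T := by
    have h2k : 0 < 2 ^ k := by positivity
    by_contra hge
    push Not at hge
    have h5 : 2 ^ k * T ≤ 2 * ((t * n ^ t) * T) := by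
      calc 2 ^ k * T ≤ 2 ^ k * (2 * ∑ S ∈ Q, (B2 S).card) := Nat.mul_le_mul_left _ hge
        _ = 2 * (2 ^ k * ∑ S ∈ Q, (B2 S).card) := by ring
        _ ≤ 2 * ((t * n ^ t) * T) := Nat.mul_le_mul_left _ hs2
    have h6 : 2 * ((t * n ^ t) * T) < 2 ^ k * T := by
      calc 2 * ((t * n ^ t) * T) = (2 * (t * n ^ t)) * T := by ring
        _ < 2 ^ k * T := Nat.mul_lt_mul_of_pos_right hk hTpos
    omega
  omega

end Pool.Agent.H58.InterCode
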